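import Pool.Agent.H796R3.Grp

/-!
# Structures pp-interconstructible with permutation groups: full positive answer to Q1

A finite structure satisfies (M) and (S) if and only if it is pp-interconstructible with some
permutation group or with `P₁`.

Outline of the proof of the hard direction (files `Pool/Agent/H796R3`).

* `Defs.lean`: structures, polymorphisms, pp-constructions, permutation groups, `P₁`, (M), (S).
* `TaskA.lean`, `TaskB.lean`: `A` pp-constructs `B` iff there is a minor-preserving map
  `Pol A → Pol B`. `TaskC.lean`: the easy direction. `TaskD.lean`: reduction to idempotent cores.
  `TaskE.lean`: structures with a constant polymorphism. (These files are due to helper54.)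
* `Alg.lean`, `Dist.lean`: a finite algebra with a Maltsev operation and guarded fully symmetric
  operations of all arities has no nontrivial abelian congruence quotients: if `Cent δ δ κ` then
  `δ ≤ κ` (`abel_trivial`). Hence its congruences permute and are distributive (`D2`), so
  the Chinese remainder theorem holds (`crt` in `Main.lean`).
* `Minion.lean`: for a finite class `Q` of finite algebras, `N(X)` is the set of all families of
  `Aut(Q l)`-equivariant maps `(Q l)^X → Q l`, together with an idempotent Boolean function.
* `Phi.lean`, `Main.lean`: for the class of all quotients of subalgebras of `A` and of its
  relations, there is a map `Φ_R : N(R) → R` natural in `R` for all homomorphisms. It is defined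
  by recursion on the size of `R`: the values on proper subalgebras and proper quotients determine
  a set of candidates, which is nonempty by the Chinese remainder theorem, and the guarded fully
  symmetric operation chooses one of them, the guard being given by the `Aut(R)`-equivariant
  component of the element of `N(R)`.
* `Conc.lean`, `Grp.lean`: hence minor-preserving maps `Pol A → N → Pol A`, and `N` is equivalent
  to the polymorphisms of the product of the automorphism groups acting on the product of the
  algebras, or to those of `P₁` if this action has a fixed point.
-/

set_option autoImplicit false

namespace Pool.Agent.Results.MP_f310dc_lc.PermGroupChar

open Pool.Agent.H796R3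

/-- A finite structure satisfies (M) and (S) if and only if it is pp-interconstructible with some
permutation group or with `P₁`. -/
theorem result (A : FStr) :
    (CondM A ∧ CondS A) ↔
      ((∃ (G : Type) (_ : Group G) (_ : Finite G) (X : Type) (_ : Finite X) (_ : MulAction G X),
        Inter A (permStr G X)) ∨ Inter A P1) :=
  main_char A

end Pool.Agent.Results.MP_f310dc_lc.PermGroupChar
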